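import Pool.Agent.H77.SSA.GDefs
import Pool.Agent.H12.MA.WO
import Pool.Agent.H35.MA.ACF

/-!
Modules LEX (members of least size), ZDM (the dominating family), FIN (the statement).
-/

set_option linter.unusedVariables false
set_option synthInstance.maxSize 100000

namespace SSA

open SW CU CUR

section
variable {N : Type} [SetStr N]

theorem SizeLe_df : Cl2 (fun a b : N => SizeLe a b) := by
  unfold SizeLe IsInjFn IsFn; infer_instance

instance {n : ℕ} {t s : (Fin n → N) → N} [ht : DfT t] [hs : DfT s] :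
    Df (fun v => SizeLe (t v) (s v)) := SizeLe_df.comp2 ht hs

theorem IsDominating_df (w : N) : SW.Cl (fun D : N => IsDominating w D) := by
  unfold IsDominating DomBy IsFn; infer_instance

end

section
variable {N : Type} [SetStr N] [ZF N]

theorem injFn_gr {F : N → N} (hF : Fn1 F) {a b : N} (h1 : ∀ x, E x a → E (F x) b)
    (h2 : ∀ x x', E x a → E x' a → F x = F x' → x = x') : IsInjFn (gr a F) a b := by
  refine ⟨⟨fun z hz => ?_, fun x hx => ⟨F x, pairIn_iff.2 ((opair_mem_gr hF).2 ⟨hx, rfl⟩)⟩,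
    fun x y y' h h' => ?_⟩, fun x x' y h h' => ?_⟩
  · rw [mem_gr' hF] at hz
    obtain ⟨x, hx, rfl⟩ := hz
    exact ⟨x, F x, hx, h1 x hx, isOP_iff.2 rfl⟩
  · rw [pairIn_iff, opair_mem_gr hF] at h h'
    rw [h.2, h'.2]
  · rw [pairIn_iff, opair_mem_gr hF] at h h'
    exact h2 x x' h.1 h'.1 (h.2.symm.trans h'.2)

/-- the inverse of an injective class function on a set -/
theorem sizeLe_inv {F : N → N} (hF : Fn1 F) {a b : N} (h1 : ∀ y, E y b → ∃ x, E x a ∧ y = F x)
    (h2 : ∀ x x', E x a → E x' a → F x = F x' → x = x') : SizeLe b a := by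
  have hG : Fn1 (fun y : N => the (fun x => E x a ∧ y = F x)) := by infer_instance
  have hs : ∀ y, E y b → E (the (fun x => E x a ∧ y = F x)) a ∧
      y = F (the (fun x => E x a ∧ y = F x)) := by
    intro y hy
    refine the_spec (p := fun x => E x a ∧ y = F x) ?_
    obtain ⟨x, hx, hyx⟩ := h1 y hy
    exact ⟨x, ⟨hx, hyx⟩, fun x' ⟨hx', h'⟩ => h2 x' x hx' hx (h'.symm.trans hyx)⟩
  refine ⟨gr b (fun y : N => the (fun x => E x a ∧ y = F x)), injFn_gr hG
    (fun y hy => (hs y hy).1) (fun y y' hy hy' e => ?_)⟩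
  rw [(hs y hy).2, e, ← (hs y' hy').2]

/-- a set covered by the values of a function on an ordinal -/
theorem sizeLe_ord {a f X : N} (ha : Ord a) (hf : ∀ y, E y X → ∃ b, E b a ∧ y = app f b) :
    SizeLe X a := by
  have hG : Fn1 (fun y : N => the (fun b => E b a ∧ y = app f b ∧ ∀ c, E c b → ¬ y = app f c)) := by
    infer_instance
  have hs : ∀ y, E y X →
      E (the (fun b => E b a ∧ y = app f b ∧ ∀ c, E c b → ¬ y = app f c)) a ∧
      y = app f (the (fun b => E b a ∧ y = app f b ∧ ∀ c, E c b → ¬ y = app f c)) ∧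
      ∀ c, E c (the (fun b => E b a ∧ y = app f b ∧ ∀ c, E c b → ¬ y = app f c)) →
        ¬ y = app f c := by
    intro y hy
    refine the_spec (p := fun b => E b a ∧ y = app f b ∧ ∀ c, E c b → ¬ y = app f c) ?_
    obtain ⟨b, hb, hyb⟩ := hf y hy
    obtain ⟨c, hc, hyc, hmin, hcb⟩ := ord_min (C := fun b => y = app f b) inferInstance
      (ha.mem hb) hyb
    have hca : E c a := by
      rcases hcb with h | rfl
      · exact ha.trans hb h
      · exact hb
    refine ⟨c, ⟨hca, hyc, hmin⟩, fun d ⟨hd, hyd, hdm⟩ => ?_⟩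
    rcases (ha.mem hd).tri hc with h | h | h
    · exact absurd hyd (hmin d h)
    · exact h
    · exact absurd hyc (hdm c h)
  refine ⟨gr X _, injFn_gr hG (fun y hy => (hs y hy).1) (fun y y' hy hy' e => ?_)⟩
  rw [(hs y hy).2.1, e, ← (hs y' hy').2.1]

end

/-- LEX -/
theorem ssa_lex (hS : SIZStmt) : LEXStmt := by
  intro N _ _ C hC ⟨D0, hD0⟩
  obtain ⟨a, f, ha, hf⟩ := ma_wo ma_acf N D0
  have h1 : SizeLe D0 a := sizeLe_ord ha hf
  have hcl : SW.Cl (fun α : N => ∃ D, C D ∧ SizeLe D α) := by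
    have := hC
    infer_instance
  obtain ⟨α, hα, ⟨D, hD, hDα⟩, hmin, _⟩ := ord_min hcl ha ⟨D0, hD0, h1⟩
  refine ⟨D, hD, fun D' hD' => ?_⟩
  obtain ⟨g, hg⟩ := ma_acf N D'
  refine (hS N).1 D α D' hDα ?_
  have hm : Fn1 (fun x : N => mrec (woF g D') x) := mrec_df
  have hstep : ∀ b : N, (∃ y, E y (diff D' (img b (fun c : N => mrec (woF g D') c)))) →
      E (mrec (woF g D') b) (diff D' (img b (fun c : N => mrec (woF g D') c))) := by
    intro b hb
    have h6 := hg _ (fun z hz => (mem_diff.1 hz).1) hb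
    rwa [← wo_eq] at h6
  -- injectivity below an ordinal
  have hinj : ∀ γ : N, Ord γ → (∀ b, E b γ →
      ∃ y, E y (diff D' (img b (fun c : N => mrec (woF g D') c)))) →
      ∀ x x', E x γ → E x' γ → mrec (woF g D') x = mrec (woF g D') x' → x = x' := by
    intro γ hγ hne x x' hx hx' e
    rcases (hγ.mem hx).tri (hγ.mem hx') with h2 | h2 | h2
    · exfalso
      refine (mem_diff.1 (hstep x' (hne x' hx'))).2 ?_
      rw [mem_img' hm]
      exact ⟨x, h2, e.symm⟩
    · exact h2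
    · exfalso
      refine (mem_diff.1 (hstep x (hne x hx))).2 ?_
      rw [mem_img' hm]
      exact ⟨x', h2, e⟩
  have hall : ∀ b, E b α → ∃ y, E y (diff D' (img b (fun c : N => mrec (woF g D') c))) := by
    by_contra hcon
    push Not at hcon
    obtain ⟨b, hb, hb'⟩ := hcon
    obtain ⟨c, hc, hc', hcmin, hcb⟩ := ord_min
      (C := fun b : N => ∀ y, ¬ E y (diff D' (img b (fun c : N => mrec (woF g D') c))))
      inferInstance (hα.mem hb) hb'
    have hcα : E c α := by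
      rcases hcb with h | rfl
      · exact hα.trans hb h
      · exact hb
    refine hmin c hcα ⟨D', hD', ?_⟩
    refine sizeLe_inv hm (fun y hy => ?_) (hinj c hc fun b hb => ?_)
    · have h4 : E y (img c (fun c : N => mrec (woF g D') c)) := by
        by_contra h5
        exact hc' y (mem_diff.2 ⟨hy, h5⟩)
      rw [mem_img' hm] at h4
      exact h4
    · by_contra h5
      push Not at h5
      exact hcmin b hb h5
  exact ⟨_, injFn_gr hm (fun x hx => (mem_diff.1 (hstep x (hall x hx))).1) (hinj α hα hall)⟩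

section
variable {N : Type} [SetStr N] [ZF N] {o A Z : N}

theorem mem_zset {Z x u : N} : E u (zset Z x) ↔ E u (prod om om) ∧ E (opair x u) Z := by
  unfold zset
  rw [mem_sep]

theorem isFn_zset (h : Ifc N o A Z) {x : N} (hx : E x o) : IsFn (zset Z x) om om := by
  refine ⟨fun z hz => ?_, fun n hn => ?_, fun n y y' h1 h2 => ?_⟩
  · rw [mem_zset, mem_prod'] at hz
    obtain ⟨⟨a, b, ha, hb, rfl⟩, _⟩ := hz
    exact ⟨a, b, ha, hb, isOP_iff.2 rfl⟩
  · obtain ⟨k, rfl⟩ := h.std n hn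
    obtain ⟨v, hv, _⟩ := h.zf x hx k
    refine ⟨nu v, pairIn_iff.2 (mem_zset.2 ⟨mem_prod.2 ⟨hn, nu_mem_om v⟩, hv⟩)⟩
  · rw [pairIn_iff, mem_zset, mem_prod] at h1 h2
    obtain ⟨⟨hn, hy⟩, h1⟩ := h1
    obtain ⟨⟨_, hy'⟩, h2⟩ := h2
    obtain ⟨k, rfl⟩ := h.std n hn
    obtain ⟨v, rfl⟩ := h.std y hy
    obtain ⟨v', rfl⟩ := h.std y' hy'
    obtain ⟨u, _, hu⟩ := h.zf x hx k
    rw [hu v h1, hu v' h2]

end

/-- ZDM -/
theorem ssa_zdm : ZDMStmt := by
  intro N _ _ o A Z h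
  have hz : Fn1 (fun x : N => zset Z x) := by infer_instance
  refine ⟨⟨fun f hf => ?_, fun g hg => ?_⟩, ?_⟩
  · rw [mem_img' hz] at hf
    obtain ⟨x, hx, rfl⟩ := hf
    exact isFn_zset h hx
  · obtain ⟨x, hx, hd⟩ := h.dom g fun n => by
      obtain ⟨y, hy⟩ := hg.2.1 (nu n) (nu_mem_om n)
      have hyo : E y om := by
        rw [pairIn_iff] at hy
        obtain ⟨a, b, ha, hb, e⟩ := hg.1 _ hy
        rw [isOP_iff, opair_inj] at e
        rw [e.2]
        exact hb
      obtain ⟨v, rfl⟩ := h.std y hyo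
      refine ⟨v, pairIn_iff.1 hy, fun v' hv' => ?_⟩
      exact nu_inj (hg.2.2 _ _ _ (pairIn_iff.2 hv') hy)
    refine ⟨zset Z x, (mem_img' hz).2 ⟨x, hx, rfl⟩, emp, emp_mem_om, fun n a b hn _ ha hb => ?_⟩
    obtain ⟨k, rfl⟩ := h.std n hn
    have hao : E a om := by
      rw [pairIn_iff] at ha
      obtain ⟨a', b', ha', hb', e⟩ := hg.1 _ ha
      rw [isOP_iff, opair_inj] at e
      rw [e.2]
      exact hb'
    obtain ⟨v, rfl⟩ := h.std a hao
    rw [pairIn_iff, mem_zset, mem_prod] at hb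
    obtain ⟨u, rfl⟩ := h.std b hb.1.2
    have h1 := hd k v u (pairIn_iff.1 ha) hb.2
    rcases h1.lt_or_eq with h2 | h2
    · exact Or.inl (nu_lt h2)
    · exact Or.inr (by rw [h2])
  · obtain ⟨g, hg⟩ := ma_acf N o
    have hG : Fn1 (fun y : N => app g (sep o (fun x => y = zset Z x))) := by infer_instance
    have hs : ∀ y, E y (img o (fun x => zset Z x)) →
        E (app g (sep o (fun x => y = zset Z x))) o ∧
          y = zset Z (app g (sep o (fun x => y = zset Z x))) := by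
      intro y hy
      rw [mem_img' hz] at hy
      obtain ⟨x, hx, hyx⟩ := hy
      have h1 := hg (sep o (fun x => y = zset Z x)) (fun z hz => (mem_sep.1 hz).1)
        ⟨x, mem_sep.2 ⟨hx, hyx⟩⟩
      rw [mem_sep] at h1
      exact h1
    refine ⟨_, injFn_gr hG (fun y hy => (hs y hy).1) (fun y y' hy hy' e => ?_)⟩
    rw [(hs y hy).2, e, ← (hs y' hy').2]

theorem isOmega_om {N : Type} [SetStr N] [ZF N] : IsOmega (om : N) := by
  have h := (isOm_iff (om : N)).2 rfl
  refine ⟨⟨?_, fun y hy => ?_⟩, fun z hz n hn => ?_⟩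
  · obtain ⟨⟨e, he, h1⟩, _⟩ := h.1
    exact ⟨e, he, h1⟩
  · obtain ⟨s, hs, h1⟩ := h.1.2 y hy
    exact ⟨s, hs, h1⟩
  · refine h.2 z ⟨?_, fun y hy => ?_⟩ n hn
    · obtain ⟨⟨e, he, h1⟩, _⟩ := hz
      exact ⟨e, he, h1⟩
    · obtain ⟨s, hs, h1⟩ := hz.2 y hy
      exact ⟨s, hs, h1⟩

/-- FIN -/
theorem ssa_fin (hL : LEXStmt) (hS : SIZStmt) (hZ : ZDMStmt) (hA : ADFStmt) (hP : PSIStmt) :
    FINStmt := by
  intro N _ _ o A Z h
  obtain ⟨h1, h2⟩ := hZ N o A Z h
  obtain ⟨D, hD, hDmin⟩ := hL N (fun D => IsDominating om D) (IsDominating_df om)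
    ⟨_, h1⟩
  refine ⟨om, D, isOmega_om, hD, hDmin, fun S hSD => ?_⟩
  have h3 : SizeLe S o := (hS N).1 _ _ _ hSD ((hS N).1 _ _ _ (hDmin _ h1) h2)
  obtain ⟨J, hJ, hSJ⟩ := (hS N).2.2 S o h3
  obtain ⟨h4, h5⟩ := hA N o A Z J h hJ
  obtain ⟨X, T, h6, h7⟩ := hP N o A Z J h hJ
  exact ⟨afam A J, X, T, h4, (hS N).2.1 _ _ _ hSJ h5, h6, h7⟩

end SSA
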