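import Pool.Agent.H77.SSA.Stmts

/-!
Finite changes lift to weaker conditions.
-/

set_option linter.unusedVariables false

namespace SSA

open Filter

theorem ssa_lift : LIFTStmt := by
  classical
  intro p q q' hp hqp hq'
  refine ⟨{ p with st := fun g n k =>
      if g ∈ p.Z ∧ q'.st g n k ≠ q.st g n k then q'.st g n k else p.st g n k }, ?_, ?_⟩
  · refine ⟨rfl, fun _ _ => rfl, fun _ _ => rfl, rfl, rfl, fun _ _ => rfl, ?_, ?_⟩
    · intro g hg n k
      show St.leg (if g ∈ p.Z ∧ q'.st g n k ≠ q.st g n k then q'.st g n k else p.st g n k) _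
      split_ifs with h
      · exact hq'.leg g (hqp.Z hg) n k
      · exact hp g hg n k
    · refine hq'.fin.subset ?_
      rintro ⟨g, n, k⟩ ⟨hg, hne⟩
      change g ∈ p.Z at hg
      change (if g ∈ p.Z ∧ q'.st g n k ≠ q.st g n k then q'.st g n k else p.st g n k) ≠
        p.st g n k at hne
      refine ⟨hqp.Z hg, ?_⟩
      show q'.st g n k ≠ q.st g n k
      intro e
      rw [if_neg (fun h => h.2 e)] at hne
      exact hne rfl
  · refine ⟨?_, ?_, ?_, ?_, ?_, ?_, ?_, ?_⟩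
    · show p.ht ≤ q'.ht
      rw [hq'.ht]
      exact hqp.ht
    · intro ξ hξ
      exact (hq'.x ξ (hξ.trans_le hqp.ht)).trans (hqp.x ξ hξ)
    · intro ξ hξ
      exact (hq'.z ξ (hξ.trans_le hqp.ht)).trans (hqp.z ξ hξ)
    · show p.Pi ⊆ q'.Pi
      rw [hq'.Pi]
      exact hqp.Pi
    · intro ξ h1 h2 S hS
      have h3 : ξ < q.ht := by
        rw [← hq'.ht]
        exact h2
      rw [hq'.x ξ h3]
      exact hqp.av ξ h1 h3 S hS
    · show p.Z ⊆ q'.Z
      rw [hq'.Z]
      exact hqp.Z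
    · intro g hg
      show p.dl g ≤ q'.dl g
      rw [hq'.dl g (hqp.Z hg)]
      exact hqp.dl g hg
    · intro g hg n k
      change g ∈ p.Z at hg
      show (q'.st g n k).le
        (if g ∈ p.Z ∧ q'.st g n k ≠ q.st g n k then q'.st g n k else p.st g n k)
      split_ifs with h
      · exact St.le_refl _
      · have : q'.st g n k = q.st g n k := by
          by_contra hne
          exact h ⟨hg, hne⟩
        rw [this]
        exact hqp.st g hg n k

theorem ssa_mono (hL : LIFTStmt) : MONOStmt := by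
  intro g p q ξ hLg hg hξ hqp hCl p' hp' N r hr hrp'
  obtain ⟨p'', h1, h2⟩ := hL (p.res (Dep g)) (q.res (Dep g)) p' hLg (hqp.res (Dep g)) hp'
  obtain ⟨r', hr', hr'r, n, hn, k, κ, h3, h4, h5⟩ := hCl p'' h1 N r hr (hrp'.trans h2)
  refine ⟨r', hr', hr'r, n, hn, k, κ, ?_, h4, h5⟩
  have h6 := hqp.st g hg n k
  rw [h3] at h6
  rw [St.of_le_hit h6, hqp.x ξ hξ]

theorem ssa_res : RESStmt := by
  intro A B p hB hp
  refine ⟨⟨hp.1.cPi, hp.1.sl, hp.1.cZ.mono Set.inter_subset_left, hp.1.xb, hp.1.ed⟩,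
    Set.inter_subset_right, ?_⟩
  rintro g ⟨hg, hgB⟩
  obtain ⟨h1, h2⟩ := hp.2.2 g hg
  refine ⟨⟨h1.dht, h1.leg, h1.c1, h1.c3, h1.c4, h1.r3, h1.r4⟩, ?_⟩
  rw [Ok_iff] at h2 ⊢
  refine ⟨h2.1, fun ξ hξ => ?_⟩
  intro p' hp' N r hr hrp'
  rw [RC.res_res p (hB g hgB)] at hp'
  exact h2.2 ξ hξ p' hp' N r hr hrp'

theorem ssa_hx : HXStmt := by
  intro g p q hqp hq hg hdl hst hC
  refine ⟨?_, ?_, ?_, ?_, ?_, ?_, ?_⟩
  · rw [hdl]
    exact hC.dht.trans hqp.ht
  · intro n k
    rw [hst]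
    exact hC.leg n k
  · intro ξ hξ n
    rw [hdl] at hξ
    have hξ' : ξ < p.ht := hξ.trans_le hC.dht
    filter_upwards [hC.c1 ξ hξ n] with k hk
    rw [hst, hqp.x ξ hξ']
    exact hk
  · intro ξ h1 h2 n
    rw [hdl] at h1
    rcases lt_or_ge ξ p.ht with h3 | h3
    · refine (hC.c3 ξ h1 h3 n).mono fun k hk => ?_
      obtain ⟨B, hB, hx⟩ := hk
      refine ⟨B, ?_, ?_⟩
      · rw [hst]
        exact hB
      · rw [hqp.x ξ h3]
        exact hx
    · obtain ⟨S, hS, hN⟩ := hC.r3 n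
      have hav := hqp.av ξ h3 h2 S hS
      obtain ⟨N0, hN0⟩ := eventually_atTop.1 hav
      rw [frequently_atTop]
      intro a
      obtain ⟨k, hk, B, hB, hsub, _⟩ := hN (max a N0)
      refine ⟨k, (le_max_left _ _).trans hk, B, ?_, ?_⟩
      · rw [hst]
        exact hB
      · by_contra hx
        exact hN0 k ((le_max_right _ _).trans hk)
          (hsub (Finset.mem_sdiff.2 ⟨Finset.mem_range.2 (hq.xb ξ h2 k), hx⟩))
  · intro ξ h1 h2 n
    rw [hdl] at h1
    rcases lt_or_ge ξ p.ht with h3 | h3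
    · filter_upwards [hC.c4 ξ h1 h3 n] with k hk
      rw [hst, hqp.x ξ h3]
      exact hk
    · obtain ⟨S, hS, hN⟩ := hC.r4 n
      filter_upwards [hN, hqp.av ξ h3 h2 S hS] with k hk hk'
      rw [hst]
      intro e
      exact hk' (hk _ e)
  · intro n
    obtain ⟨S, hS, hN⟩ := hC.r3 n
    refine ⟨S, hqp.Pi hS, fun N => ?_⟩
    obtain ⟨k, hk, B, hB, h⟩ := hN N
    exact ⟨k, hk, B, (hst n k).trans hB, h⟩
  · intro n
    obtain ⟨S, hS, hN⟩ := hC.r4 n
    refine ⟨S, hqp.Pi hS, ?_⟩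
    filter_upwards [hN] with k hk i hi
    exact hk i ((hst n k).symm.trans hi)

theorem ssa_ext (hH : HXStmt) (hM : MONOStmt) : EXTStmt := by
  intro A p q hp hqp hq hqA hall
  refine ⟨hq, hqA, fun g hg => ?_⟩
  rcases hall g hg with ⟨h1, h2, h3⟩ | h
  · obtain ⟨h4, h5⟩ := hp.2.2 g h1
    refine ⟨hH g p q hqp hq h1 h2 h3 h4, ?_⟩
    rw [Ok_iff] at h5 ⊢
    refine ⟨h5.1, fun ξ hξ => ?_⟩
    rw [h2] at hξ
    exact hM g p q ξ (hp.lg.res _) h1 (hξ.trans_le h4.dht) hqp (h5.2 ξ hξ)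
  · exact h

theorem ssa_act (hE : EXTStmt) : ACTStmt := by
  classical
  intro A p g hp hgA hgd
  by_cases hg : g ∈ p.Z
  · exact ⟨p, hp, RC.Le.refl p, hg, rfl⟩
  let q : RC :=
    { p with
      Z := insert g p.Z
      Pi := insert (fun _ => ∅) p.Pi
      dl := fun a => if a = g then bt else p.dl a
      st := fun a n k => if a = g then .opn (Finset.range (nb k)) else p.st a n k }
  have hqdl : q.dl g = bt := if_pos rfl
  have hqst : ∀ n k, q.st g n k = .opn (Finset.range (nb k)) := fun n k => if_pos rfl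
  have hne : ∀ a ∈ p.Z, a ≠ g := fun a ha e => hg (e ▸ ha)
  have hdl' : ∀ a ∈ p.Z, q.dl a = p.dl a := fun a ha => if_neg (hne a ha)
  have hst' : ∀ a ∈ p.Z, ∀ n k, q.st a n k = p.st a n k := fun a ha n k => if_neg (hne a ha)
  have hqp : q.Le p := by
    refine ⟨le_rfl, fun _ _ => rfl, fun _ _ => rfl, Set.subset_insert _ _, ?_,
      Set.subset_insert _ _, ?_, ?_⟩
    · intro ξ h1 h2
      exact absurd h2 (not_lt.2 h1)
    · intro a ha
      rw [hdl' a ha]
    · intro a ha n k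
      rw [hst' a ha]
      exact St.le_refl _
  refine ⟨q, ?_, hqp, Set.mem_insert _ _, rfl⟩
  refine hE A p q hp hqp ⟨hp.1.cPi.insert _, ?_, hp.1.cZ.insert _, hp.1.xb, hp.1.ed⟩ ?_ ?_
  · intro S hS k
    rcases Set.mem_insert_iff.1 hS with h | h
    · rw [h]
      simp
    · exact hp.1.sl S h k
  · intro a ha
    rcases Set.mem_insert_iff.1 ha with h | h
    · rw [h]
      exact hgA
    · exact hp.2.1 h
  · intro a ha
    rcases Set.mem_insert_iff.1 ha with h | h
    · right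
      subst h
      refine ⟨⟨?_, ?_, ?_, ?_, ?_, ?_, ?_⟩, ?_⟩
      · rw [hqdl]
        exact bt_le _
      · intro n k
        rw [hqst]
        exact Finset.Subset.refl _
      · intro ξ hξ
        rw [hqdl] at hξ
        exact absurd hξ (not_lt.2 (bt_le _))
      · intro ξ _ h2 n
        refine (Eventually.of_forall fun k => ?_).frequently
        exact ⟨_, hqst n k, Finset.mem_range.2 (hp.1.xb ξ h2 k)⟩
      · intro ξ _ h2 n
        refine Eventually.of_forall fun k => ?_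
        rw [hqst]
        exact fun e => St.noConfusion e
      · intro n
        refine ⟨fun _ => ∅, Set.mem_insert _ _, fun N => ⟨N, le_rfl, _, hqst n N, ?_, ?_⟩⟩
        · simp
        · simp
      · intro n
        refine ⟨fun _ => ∅, Set.mem_insert _ _, Eventually.of_forall fun k i hi => ?_⟩
        rw [hqst] at hi
        exact St.noConfusion hi
      · rw [Ok_iff]
        refine ⟨hgd, fun ξ hξ => ?_⟩
        rw [hqdl] at hξ
        exact absurd hξ (not_lt.2 (bt_le _))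
    · left
      exact ⟨h, hdl' a h, hst' a h⟩

end SSA
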